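import Pool.Agent.N353.QV.FIN
import Pool.Agent.N728.QU.DefG2

/-!
Project QV (helper728), part UNI: all M up to K H simultaneously (helper581).
-/

set_option autoImplicit false

namespace Pool.Agent.N581.QV

open Finset Pool.Agent.N728.QU
open Pool.Agent.N199.QL (markov ev_pow ev_log ev_ge)
open Pool.Agent.N765.QU (card_diam sum_inv)
open Pool.Agent.N353.QV (Vg_sep Sqg_nonneg)

noncomputable section

/-- the sum of the inverse logarithms -/
def SV (a b τ c : ℤ) (h M : ℕ) : ℝ :=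
  ∑ m ∈ (Icc 1 M).filter (fun m : ℕ => 2 ≤ Vg a b τ c h m),
    1 / Real.log ((Vg a b τ c h m : ℤ) : ℝ)

theorem term_nonneg {v : ℤ} (h : 2 ≤ v) : 0 ≤ 1 / Real.log ((v : ℤ) : ℝ) := by
  have h2 : (2 : ℝ) ≤ ((v : ℤ) : ℝ) := by exact_mod_cast h
  have := Real.log_nonneg (by linarith : (1 : ℝ) ≤ ((v : ℤ) : ℝ))
  positivity

theorem SV_mono (a b τ c : ℤ) (h : ℕ) {M M' : ℕ} (hM : M ≤ M') :
    SV a b τ c h M ≤ SV a b τ c h M' := by
  unfold SV
  refine Finset.sum_le_sum_of_subset_of_nonneg ?_ ?_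
  · exact Finset.filter_subset_filter _ (Finset.Icc_subset_Icc_right hM)
  · intro m hm _
    exact term_nonneg (mem_filter.1 hm).2

theorem cntg_mono (a b τ c : ℤ) (h : ℕ) {M M' : ℕ} (hM : M ≤ M') :
    (cntg a b τ c h M : ℝ) ≤ cntg a b τ c h M' := by
  unfold cntg
  exact_mod_cast Finset.card_le_card (Finset.filter_subset_filter _
    (Finset.Icc_subset_Icc_right hM))

theorem SV_step {a b τ c : ℤ} (ha : 1 ≤ a) (hτ : τ = 1 ∨ τ = -1) {h H M M' q : ℕ} (hH : 1 ≤ H)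
    (hM : M ≤ M') (hq : M' ≤ M + q) {l n0 : ℝ} (hl : l = Real.log H) (hl0 : 0 < l)
    (hn0 : √(H : ℝ) + |(b : ℝ)| + 1 ≤ n0) :
    SV a b τ c h M' ≤ SV a b τ c h M + (q / l + 2 * n0) := by
  classical
  have hH0 : (0 : ℝ) < H := by exact_mod_cast hH
  obtain ⟨B, hB⟩ : ∃ B : Finset ℕ, B = (Ioc M M').filter (fun m : ℕ => 2 ≤ Vg a b τ c h m) :=
    ⟨_, rfl⟩
  have hsplit : (Icc 1 M').filter (fun m : ℕ => 2 ≤ Vg a b τ c h m) ⊆
      (Icc 1 M).filter (fun m : ℕ => 2 ≤ Vg a b τ c h m) ∪ B := by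
    intro m hm
    rw [hB, mem_union, mem_filter, mem_filter, mem_Icc, mem_Ioc]
    rw [mem_filter, mem_Icc] at hm
    rcases le_or_gt m M with h1 | h1
    · exact Or.inl ⟨⟨hm.1.1, h1⟩, hm.2⟩
    · exact Or.inr ⟨⟨h1, hm.1.2⟩, hm.2⟩
  have h1 : SV a b τ c h M' ≤ SV a b τ c h M +
      ∑ m ∈ B, 1 / Real.log ((Vg a b τ c h m : ℤ) : ℝ) := by
    have h2 : SV a b τ c h M' ≤ ∑ m ∈ (Icc 1 M).filter (fun m : ℕ => 2 ≤ Vg a b τ c h m) ∪ B,
        1 / Real.log ((Vg a b τ c h m : ℤ) : ℝ) := by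
      unfold SV
      refine Finset.sum_le_sum_of_subset_of_nonneg hsplit ?_
      intro m hm _
      apply term_nonneg
      rw [mem_union, hB, mem_filter, mem_filter] at hm
      rcases hm with h | h
      · exact h.2
      · exact h.2
    refine h2.trans ?_
    have h3 := Finset.sum_union_inter (s₁ := (Icc 1 M).filter (fun m : ℕ => 2 ≤ Vg a b τ c h m))
      (s₂ := B) (f := fun m : ℕ => 1 / Real.log ((Vg a b τ c h m : ℤ) : ℝ))
    have h4 : 0 ≤ ∑ m ∈ (Icc 1 M).filter (fun m : ℕ => 2 ≤ Vg a b τ c h m) ∩ B,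
        1 / Real.log ((Vg a b τ c h m : ℤ) : ℝ) := by
      refine Finset.sum_nonneg fun m hm => term_nonneg ?_
      rw [mem_inter, mem_filter] at hm
      exact hm.1.2
    unfold SV
    linarith
  have hBm : ∀ m ∈ B, 2 ≤ Vg a b τ c h m := by
    intro m hm
    rw [hB] at hm
    exact (mem_filter.1 hm).2
  have hsm : ((B.filter fun m => ((Vg a b τ c h m : ℤ) : ℝ) ≤ (H : ℝ)).card : ℝ) ≤ n0 := by
    refine (card_diam _ (D := √(H : ℝ) + |(b : ℝ)|) (by positivity) fun m hm m' hm' => ?_).trans hn0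
    rw [mem_filter] at hm hm'
    exact Vg_sep ha hτ h m m' (hBm m hm.1) hm.2 (hBm m' hm'.1) hm'.2
  have hY : ∀ m, 2 ≤ Vg a b τ c h m → (H : ℝ) < ((Vg a b τ c h m : ℤ) : ℝ) →
      l ≤ Real.log ((Vg a b τ c h m : ℤ) : ℝ) := by
    intro m _ h2
    rw [hl]
    exact Real.log_le_log hH0 h2.le
  have h5 := sum_inv (v := fun m => Vg a b τ c h m) B hl0 hBm hsm hY
  have h6 : (B.card : ℝ) ≤ q := by
    have h7 : B.card ≤ q := by
      rw [hB]
      refine (Finset.card_filter_le _ _).trans ?_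
      rw [Nat.card_Ioc]
      omega
    exact_mod_cast h7
  have h8 : (B.card : ℝ) / l ≤ q / l := by gcongr
  linarith

/-- one h -/
theorem one_uni {a b τ c : ℤ} (ha : 1 ≤ a) (hτ : τ = 1 ∨ τ = -1) {h H M0 M M1 q : ℕ} (hH : 1 ≤ H)
    (hM0 : M0 ≤ M) (hM1 : M ≤ M1) (hq : M1 ≤ M0 + q) {l n0 S L E : ℝ} (hl : l = Real.log H)
    (hl0 : 0 < l) (hn0 : √(H : ℝ) + |(b : ℝ)| + 1 ≤ n0) (hS : 0 ≤ S) (hSL : S ≤ L)
    (h0 : |(cntg a b τ c h M0 : ℝ) - S * SV a b τ c h M0| ≤ E)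
    (h1 : |(cntg a b τ c h M1 : ℝ) - S * SV a b τ c h M1| ≤ E) :
    |(cntg a b τ c h M : ℝ) - S * SV a b τ c h M| ≤ E + L * (q / l + 2 * n0) := by
  have hn0' : 0 ≤ n0 := le_trans (by positivity) hn0
  have a1 := cntg_mono a b τ c h hM0
  have a2 := cntg_mono a b τ c h hM1
  have a3 := SV_mono a b τ c h hM0
  have a4 := SV_mono a b τ c h hM1
  have a5 := SV_step (c := c) ha hτ (h := h) hH (hM0.trans hM1) hq hl hl0 hn0
  have b3 := mul_le_mul_of_nonneg_left a3 hS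
  have b4 := mul_le_mul_of_nonneg_left a4 hS
  have b5 := mul_le_mul_of_nonneg_left a5 hS
  have h2 : 0 ≤ (q : ℝ) / l + 2 * n0 := by positivity
  have b6 := mul_le_mul_of_nonneg_right hSL h2
  rw [mul_add] at b5
  rw [abs_le] at h0 h1 ⊢
  constructor <;> linarith [h0.1, h0.2, h1.1, h1.2]

/-- UNI -/
theorem t_UNI (a b : ℤ) (ha : 1 ≤ a) (hF : ∀ s0, FinalG s0 a b) (hAVS : S_AVSg a b)
    (hTLS : ∀ s0, S_TLSg s0 a b) (s0 : ℕ) : FinalGU s0 a b := by
  classical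
  intro ε hε
  obtain ⟨κ, hκ, hFκ⟩ := hF s0 (ε / 4) (by positivity)
  obtain ⟨C, hC, hAV⟩ := hAVS
  refine ⟨κ, hκ, ?_⟩
  intro δ K hδ
  obtain ⟨S0, hS0⟩ : ∃ S0, S0 = 8 * C / ε := ⟨_, rfl⟩
  have hS0p : 0 < S0 := by rw [hS0]; positivity
  obtain ⟨L, hL⟩ : ∃ L, L = S0 + 1 := ⟨_, rfl⟩
  have hLp : 0 < L := by rw [hL]; positivity
  obtain ⟨e, he⟩ : ∃ e, e = min 1 (δ / (4 * L)) := ⟨_, rfl⟩
  have he0 : 0 < e := by rw [he]; exact lt_min one_pos (by positivity)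
  have he1 : e ≤ 1 := by rw [he]; exact min_le_left _ _
  have heδ : 4 * L * e ≤ δ := by
    have h1 : e ≤ δ / (4 * L) := by rw [he]; exact min_le_right _ _
    rw [le_div_iff₀ (by positivity)] at h1
    linarith
  obtain ⟨t, ht⟩ : ∃ t, t = min (ε / 8) 1 := ⟨_, rfl⟩
  have ht0 : 0 < t := by
    rw [ht]
    exact lt_min (by positivity) one_pos
  have ht1 : t ≤ ε / 8 := by rw [ht]; exact min_le_left _ _
  have ht2 : t ≤ 1 := by rw [ht]; exact min_le_right _ _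
  obtain ⟨J, hJ⟩ : ∃ J : ℕ, 2 * (K : ℝ) / e + 1 ≤ J := exists_nat_ge _
  obtain ⟨ε', hε'⟩ : ∃ ε', ε' = ε / (4 * (J + 1)) := ⟨_, rfl⟩
  have hε'0 : 0 < ε' := by rw [hε']; positivity
  obtain ⟨κ', hκ', hFκ'⟩ := hF s0 ε' hε'0
  obtain ⟨z1, hz1⟩ := hFκ δ K hδ
  obtain ⟨z2, hz2⟩ := hFκ' (δ / 4) K (by positivity)
  obtain ⟨z, hz⟩ := hTLS s0 t ht0
  refine ⟨max z1 (max z2 z), fun A => ?_⟩
  obtain ⟨H1, hH1⟩ := hz1 A
  obtain ⟨H2, hH2⟩ := hz2 A
  obtain ⟨H3, hH3⟩ := hz z le_rfl A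
  obtain ⟨H4, hH4⟩ := hAV z
  have hev : ∀ᶠ H : ℕ in Filter.atTop, ∀ (Z : ℕ) (c τ : ℤ), Tame s0 c → Adg a b c →
      (τ = 1 ∨ τ = -1) → c.natAbs ≤ K * H ^ 2 → max z1 (max z2 z) ≤ Z →
      (Z : ℝ) ≤ Real.log H ^ A →
      (((Icc 1 H).filter (fun h : ℕ => ¬ (κ ≤ Sqg a b τ c h Z ∧ ∀ M : ℕ, M ≤ K * H →
        |(cntg a b τ c h M : ℝ) -
        Sqg a b τ c h Z * ∑ m ∈ (Icc 1 M).filter (fun m : ℕ => 2 ≤ Vg a b τ c h m),
          1 / Real.log ((Vg a b τ c h m : ℤ) : ℝ)| ≤ δ * (H / Real.log H)))).card : ℝ) ≤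
      ε * H := by
    filter_upwards [Filter.eventually_ge_atTop 2, Filter.eventually_ge_atTop H1,
      Filter.eventually_ge_atTop H2, Filter.eventually_ge_atTop H3,
      Filter.eventually_ge_atTop H4, ev_ge (1 / e), ev_log 1,
      ev_pow ((12 * L / δ) ^ 2) 2, ev_ge (|(b : ℝ)| ^ 2)] with H g1 g2 g3 g4 g5 g6 g7 g8 g9
    intro Z c τ hT hAd hτ hc hZ hZA
    have hZ1 : z1 ≤ Z := (le_max_left _ _).trans hZ
    have hZ2 : z2 ≤ Z := ((le_max_left _ _).trans (le_max_right _ _)).trans hZ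
    have hZ3 : z ≤ Z := ((le_max_right _ _).trans (le_max_right _ _)).trans hZ
    obtain ⟨l, hl⟩ : ∃ l, l = Real.log (H : ℝ) := ⟨_, rfl⟩
    have hZA' := hZA
    rw [← hl] at g7 g8 ⊢
    have hl0 : 0 < l := by linarith
    have hHr2 : (2 : ℝ) ≤ H := by exact_mod_cast g1
    have hH0 : (0 : ℝ) < H := by linarith
    have hHn : 1 ≤ H := by omega
    -- the grid
    obtain ⟨q, hq⟩ : ∃ q, q = ⌊e * (H : ℝ)⌋₊ := ⟨_, rfl⟩
    have heH : 1 ≤ e * (H : ℝ) := by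
      rw [div_le_iff₀ he0] at g6
      linarith
    have hq1 : 1 ≤ q := by
      rw [hq]
      exact Nat.one_le_floor_iff _ |>.2 heH
    have hqe : (q : ℝ) ≤ e * H := by
      rw [hq]
      exact Nat.floor_le (by positivity)
    have hqe2 : e * H ≤ 2 * q := by
      have h1 : e * (H : ℝ) < q + 1 := by
        rw [hq]
        exact Nat.lt_floor_add_one _
      have h2 : (1 : ℝ) ≤ q := by exact_mod_cast hq1
      linarith
    have hjJ : ∀ M : ℕ, M ≤ K * H → M / q + 1 ≤ J := by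
      intro M hM
      have h1 : M / q * q ≤ M := Nat.div_mul_le_self M q
      have h2 : ((M / q : ℕ) : ℝ) * q ≤ K * H := by
        have h3 : M / q * q ≤ K * H := h1.trans hM
        exact_mod_cast h3
      have h3 : ((M / q : ℕ) : ℝ) * (e * H) ≤ 2 * (K * H) := by
        have : ((M / q : ℕ) : ℝ) * (e * H) ≤ ((M / q : ℕ) : ℝ) * (2 * q) := by gcongr
        linarith
      have h4 : ((M / q : ℕ) : ℝ) * e ≤ 2 * K := by
        have : ((M / q : ℕ) : ℝ) * e * H ≤ 2 * K * H := by linarith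
        exact le_of_mul_le_mul_right this hH0
      have h5 : ((M / q : ℕ) : ℝ) ≤ 2 * K / e := by
        rw [le_div_iff₀ he0]
        exact h4
      have h6 : ((M / q + 1 : ℕ) : ℝ) ≤ J := by
        push_cast
        linarith
      exact_mod_cast h6
    -- the exceptional sets
    obtain ⟨E0, hE0⟩ : ∃ E0 : Finset ℕ, E0 = (Icc 1 H).filter (fun h : ℕ =>
      ¬ (κ ≤ Sqg a b τ c h Z ∧ |(cntg a b τ c h 0 : ℝ) -
        Sqg a b τ c h Z * ∑ m ∈ (Icc 1 0).filter (fun m : ℕ => 2 ≤ Vg a b τ c h m),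
          1 / Real.log ((Vg a b τ c h m : ℤ) : ℝ)| ≤ δ * (H / Real.log H))) := ⟨_, rfl⟩
    obtain ⟨E1, hE1⟩ : ∃ E1 : Finset ℕ, E1 = (Icc 1 H).filter fun h : ℕ => S0 < Sqg a b τ c h z :=
      ⟨_, rfl⟩
    obtain ⟨E2, hE2⟩ : ∃ E2 : Finset ℕ, E2 = (Icc 1 H).filter fun h : ℕ =>
        t < |Sqg a b τ c h Z - Sqg a b τ c h z| := ⟨_, rfl⟩
    obtain ⟨Q, hQ⟩ : ∃ Q : ℕ → Finset ℕ, Q = fun j => (Icc 1 H).filter (fun h : ℕ =>
      ¬ (κ' ≤ Sqg a b τ c h Z ∧ |(cntg a b τ c h (min (j * q) (K * H)) : ℝ) -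
        Sqg a b τ c h Z * ∑ m ∈ (Icc 1 (min (j * q) (K * H))).filter
          (fun m : ℕ => 2 ≤ Vg a b τ c h m),
          1 / Real.log ((Vg a b τ c h m : ℤ) : ℝ)| ≤ δ / 4 * (H / Real.log H))) := ⟨_, rfl⟩
    obtain ⟨E3, hE3⟩ : ∃ E3 : Finset ℕ, E3 = (range (J + 1)).biUnion Q := ⟨_, rfl⟩
    -- the numbers
    have hn0 : L * (2 * (√(H : ℝ) + |(b : ℝ)| + 1)) ≤ δ / 2 * (H / l) := by
      have e1 : 12 * L / δ * l ≤ √(H : ℝ) := by
        refine Real.le_sqrt_of_sq_le ?_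
        rw [mul_pow]
        exact g8
      have e2 : 1 ≤ √(H : ℝ) := Real.one_le_sqrt.2 (by linarith)
      have e2' : |(b : ℝ)| ≤ √(H : ℝ) := Real.le_sqrt_of_sq_le g9
      have e3 : √(H : ℝ) * √(H : ℝ) = H := Real.mul_self_sqrt hH0.le
      rw [← mul_div_assoc, le_div_iff₀ hl0]
      calc L * (2 * (√(H : ℝ) + |(b : ℝ)| + 1)) * l ≤
            L * (2 * (√(H : ℝ) + √(H : ℝ) + √(H : ℝ))) * l := by
            gcongr
        _ = δ / 2 * ((12 * L / δ * l) * √(H : ℝ)) := by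
            field_simp
            ring
        _ ≤ δ / 2 * (√(H : ℝ) * √(H : ℝ)) := by gcongr
        _ = δ / 2 * H := by rw [e3]
    have hsub : (Icc 1 H).filter (fun h : ℕ => ¬ (κ ≤ Sqg a b τ c h Z ∧ ∀ M : ℕ, M ≤ K * H →
        |(cntg a b τ c h M : ℝ) -
        Sqg a b τ c h Z * ∑ m ∈ (Icc 1 M).filter (fun m : ℕ => 2 ≤ Vg a b τ c h m),
          1 / Real.log ((Vg a b τ c h m : ℤ) : ℝ)| ≤ δ * (H / l))) ⊆
        E0 ∪ (E1 ∪ (E2 ∪ E3)) := by
      intro h hh1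
      rw [mem_filter, mem_Icc] at hh1
      obtain ⟨⟨hh1, hhH⟩, hno⟩ := hh1
      by_contra hcon
      rw [mem_union, mem_union, mem_union, not_or, not_or, not_or] at hcon
      obtain ⟨n0, n1, n2, n3⟩ := hcon
      apply hno
      have hmem : h ∈ Icc 1 H := mem_Icc.2 ⟨hh1, hhH⟩
      have m0 : κ ≤ Sqg a b τ c h Z := by
        by_contra hc1
        apply n0
        rw [hE0]
        exact mem_filter.2 ⟨hmem, fun h' => hc1 h'.1⟩
      have m1 : Sqg a b τ c h z ≤ S0 := by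
        by_contra hc1
        apply n1
        rw [hE1]
        exact mem_filter.2 ⟨hmem, not_le.1 hc1⟩
      have m2 : |Sqg a b τ c h Z - Sqg a b τ c h z| ≤ t := by
        by_contra hc1
        apply n2
        rw [hE2]
        exact mem_filter.2 ⟨hmem, not_le.1 hc1⟩
      have mSL : Sqg a b τ c h Z ≤ L := by
        rw [hL]
        linarith [(abs_le.1 m2).2]
      have m3 : ∀ j, j ≤ J → |(cntg a b τ c h (min (j * q) (K * H)) : ℝ) -
          Sqg a b τ c h Z * SV a b τ c h (min (j * q) (K * H))| ≤ δ / 4 * (H / l) := by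
        intro j hj
        by_contra hc1
        apply n3
        rw [hE3, mem_biUnion]
        refine ⟨j, mem_range.2 (by omega), ?_⟩
        rw [hQ]
        refine mem_filter.2 ⟨hmem, fun h' => hc1 ?_⟩
        rw [hl]
        exact h'.2
      refine ⟨m0, fun M hM => ?_⟩
      have hj1 := hjJ M hM
      have hjq : M / q * q ≤ M := Nat.div_mul_le_self M q
      have hjq2 : M < (M / q + 1) * q := by
        have := Nat.lt_div_mul_add (a := M) (b := q) (by omega)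
        rw [add_mul, one_mul]
        exact this
      have c0 : min (M / q * q) (K * H) ≤ M := (min_le_left _ _).trans hjq
      have c1 : M ≤ min ((M / q + 1) * q) (K * H) := le_min hjq2.le hM
      have c2 : min ((M / q + 1) * q) (K * H) ≤ min (M / q * q) (K * H) + q := by
        rw [min_eq_left (hjq.trans hM)]
        refine (min_le_left _ _).trans ?_
        rw [add_mul, one_mul]
      have fin := one_uni ha hτ (h := h) hHn c0 c1 c2 hl hl0 le_rfl (Sqg_nonneg a b τ c h Z) mSL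
        (m3 (M / q) (by omega)) (m3 (M / q + 1) hj1)
      refine fin.trans ?_
      have f1 : L * ((q : ℝ) / l) ≤ δ / 4 * (H / l) := by
        rw [← mul_div_assoc, ← mul_div_assoc]
        apply div_le_div_of_nonneg_right _ hl0.le
        have : L * (q : ℝ) ≤ L * (e * H) := by gcongr
        nlinarith
      have f2 : 0 ≤ (H : ℝ) / l := by positivity
      rw [mul_add]
      linarith
    have hcard := Finset.card_le_card hsub
    have d0 : (E0.card : ℝ) ≤ ε / 4 * H := by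
      rw [hE0]
      exact hH1 H g2 0 Z c τ hT hAd hτ hc (Nat.zero_le _) hZ1 hZA'
    have d1 : (E1.card : ℝ) ≤ ε / 8 * H := by
      rw [hE1]
      refine markov (Icc 1 H) (fun h : ℕ => Sqg a b τ c h z) (fun h => Sqg_nonneg a b τ c h z) hS0p ?_
      refine (hH4 H g5 c τ hT.1 hτ).trans (le_of_eq ?_)
      rw [hS0]
      field_simp
    have d2 : (E2.card : ℝ) ≤ ε / 8 * H := by
      rw [hE2]
      refine (hH3 H g4 Z c τ hT hτ hZ3 hZA').trans ?_
      gcongr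
    have d3 : (E3.card : ℝ) ≤ ε / 4 * H := by
      rw [hE3]
      have e1 : (((range (J + 1)).biUnion Q).card : ℝ) ≤ ∑ j ∈ range (J + 1), ((Q j).card : ℝ) := by
        have : ((range (J + 1)).biUnion Q).card ≤ ∑ j ∈ range (J + 1), (Q j).card :=
          Finset.card_biUnion_le
        exact_mod_cast this
      have e2 : ∑ j ∈ range (J + 1), ((Q j).card : ℝ) ≤ ∑ _j ∈ range (J + 1), ε' * H := by
        refine Finset.sum_le_sum fun j _ => ?_
        rw [hQ]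
        exact hH2 H g3 (min (j * q) (K * H)) Z c τ hT hAd hτ hc (min_le_right _ _) hZ2 hZA'
      rw [Finset.sum_const, card_range, nsmul_eq_mul] at e2
      refine e1.trans (e2.trans (le_of_eq ?_))
      rw [hε']
      push_cast
      field_simp
    have u1 := Finset.card_union_le E0 (E1 ∪ (E2 ∪ E3))
    have u2 := Finset.card_union_le E1 (E2 ∪ E3)
    have u3 := Finset.card_union_le E2 E3
    have u5 : (((Icc 1 H).filter (fun h : ℕ => ¬ (κ ≤ Sqg a b τ c h Z ∧ ∀ M : ℕ, M ≤ K * H →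
        |(cntg a b τ c h M : ℝ) -
        Sqg a b τ c h Z * ∑ m ∈ (Icc 1 M).filter (fun m : ℕ => 2 ≤ Vg a b τ c h m),
          1 / Real.log ((Vg a b τ c h m : ℤ) : ℝ)| ≤ δ * (H / l)))).card : ℝ) ≤
        E0.card + E1.card + E2.card + E3.card := by
      have := hcard.trans (u1.trans (Nat.add_le_add_left (u2.trans (Nat.add_le_add_left u3 _)) _))
      have h2 : ((_ : ℕ) : ℝ) ≤ ((_ : ℕ) : ℝ) := Nat.cast_le.2 this
      push_cast at h2
      linarith
    have h0 : 0 < ε * H := by positivity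
    linarith
  obtain ⟨H0, hH0⟩ := Filter.eventually_atTop.1 hev
  exact ⟨H0, fun H hH Z c τ hT hAd hτ hc hZ hZA => hH0 H hH Z c τ hT hAd hτ hc hZ hZA⟩

end

end Pool.Agent.N581.QV
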